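import Pool.Agent.D0H30.QT.Stm
import Pool.Agent.H95R2.Leh.ApSieve

/-! Project QT, module W. -/

set_option autoImplicit false

namespace Pool.Agent.D0H70.QT

open Finset Pool.Agent.D0H30.QT

lemma gp_pos (p : ℕ) : 0 < gp p := by
  unfold gp; split_ifs <;> norm_num

open Classical in
/-- the number of the residues in a class modulo fourth powers -/
lemma loc_card {p : ℕ} (hp : p.Prime) (h2 : p ≠ 2) (α β : ℤ) (hα : ¬ (p : ℤ) ∣ α)
    (hβ : ¬ (p : ℤ) ∣ β) :
    (((range p).filter (fun a : ℕ => Q4 p (α * a) β)).card : ℝ) ≤ (p - 1 : ℝ) * (gp p)⁻¹ := by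
  have : Fact p.Prime := ⟨hp⟩
  have hα0 : (α : ZMod p) ≠ 0 := by
    rw [Ne, ZMod.intCast_zmod_eq_zero_iff_dvd]; exact hα
  have hβ0 : (β : ZMod p) ≠ 0 := by
    rw [Ne, ZMod.intCast_zmod_eq_zero_iff_dvd]; exact hβ
  have h1 : ((range p).filter (fun a : ℕ => Q4 p (α * a) β)).card ≤
      (Finset.univ.filter
        (fun v : (ZMod p)ˣ => v ∈ (powMonoidHom 4 : (ZMod p)ˣ →* (ZMod p)ˣ).range)).card := by
    have h3 : ((Finset.univ.filter
        (fun v : (ZMod p)ˣ => v ∈ (powMonoidHom 4 : (ZMod p)ˣ →* (ZMod p)ˣ).range)).image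
          (fun v : (ZMod p)ˣ => (v : ZMod p))).card ≤ _ := Finset.card_image_le
    refine le_trans ?_ h3
    apply Finset.card_le_card_of_injOn (fun a : ℕ => (α : ZMod p) * a * (β : ZMod p)⁻¹)
    · intro a ha
      rw [Finset.mem_coe, Finset.mem_filter] at ha
      obtain ⟨-, u, hu, he⟩ := ha
      rw [Finset.mem_coe, Finset.mem_image]
      refine ⟨(Units.mk0 u hu) ^ 4, ?_, ?_⟩
      · rw [Finset.mem_filter]
        exact ⟨Finset.mem_univ _, ⟨Units.mk0 u hu, rfl⟩⟩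
      · push_cast at he
        show (((Units.mk0 u hu) ^ 4 : (ZMod p)ˣ) : ZMod p) = (α : ZMod p) * a * (β : ZMod p)⁻¹
        rw [he, mul_assoc, mul_inv_cancel₀ hβ0, mul_one]
        rfl
    · intro a ha b hb hab
      rw [Finset.mem_coe, Finset.mem_filter, Finset.mem_range] at ha hb
      have h4 : (α : ZMod p) * a = (α : ZMod p) * b :=
        mul_right_cancel₀ (inv_ne_zero hβ0) hab
      have h5 : ((a : ℕ) : ZMod p) = ((b : ℕ) : ZMod p) := mul_left_cancel₀ hα0 h4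
      rw [ZMod.natCast_eq_natCast_iff'] at h5
      rwa [Nat.mod_eq_of_lt ha.1, Nat.mod_eq_of_lt hb.1] at h5
  have h2' : (Finset.univ.filter
      (fun v : (ZMod p)ˣ => v ∈ (powMonoidHom 4 : (ZMod p)ˣ →* (ZMod p)ˣ).range)).card =
      (p - 1) / (p - 1).gcd 4 := by
    have h3 := IsCyclic.card_powMonoidHom_range (ZMod p)ˣ 4
    rw [Nat.card_eq_fintype_card (α := (ZMod p)ˣ), ZMod.card_units_eq_totient,
      Nat.totient_prime hp] at h3
    rw [← h3, Nat.card_eq_fintype_card, ← Fintype.card_subtype]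
  have hodd : p % 2 = 1 := by
    rcases hp.eq_two_or_odd with h | h
    · exact absurd h h2
    · exact h
  have hp1 := hp.one_lt
  have h3 : (((p - 1) / (p - 1).gcd 4 : ℕ) : ℝ) = (p - 1 : ℝ) * (gp p)⁻¹ := by
    rw [Nat.cast_div (Nat.gcd_dvd_left _ _) (by
      have : (p - 1).gcd 4 ≠ 0 := by
        intro h
        rw [Nat.gcd_eq_zero_iff] at h
        omega
      exact_mod_cast this), Nat.cast_sub hp1.le, Nat.cast_one, div_eq_mul_inv]
    congr 2
    unfold gp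
    have h4 : (p - 1).gcd 4 = ((p - 1) % 4).gcd 4 := by
      rw [Nat.gcd_comm, Nat.gcd_rec]
    rw [h4]
    split_ifs with h
    · have : (p - 1) % 4 = 0 := by omega
      rw [this]; norm_num
    · have : (p - 1) % 4 = 2 := by omega
      rw [this]; norm_num
  rw [← h3, ← h2']
  exact_mod_cast h1

lemma Q4_mod {p : ℕ} {α β : ℤ} {m n : ℕ} (h : m ≡ n [MOD p]) :
    Q4 p (α * m) β ↔ Q4 p (α * n) β := by
  have h1 : ((m : ℕ) : ZMod p) = ((n : ℕ) : ZMod p) := (ZMod.natCast_eq_natCast_iff _ _ _).2 h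
  unfold Q4
  push_cast
  rw [h1]

open Classical in
/-- the number of the residues modulo the product -/
lemma res_card (M : Finset ℕ) (α β : ℕ → ℤ)
    (hM : ∀ p ∈ M, p.Prime ∧ p ≠ 2 ∧ ¬ (p : ℤ) ∣ α p ∧ ¬ (p : ℤ) ∣ β p) :
    (((range (pr M)).filter (fun a : ℕ => ∀ p ∈ M, Q4 p (α p * a) (β p))).card : ℝ) ≤
      ∏ p ∈ M, ((p - 1 : ℝ) * (gp p)⁻¹) := by
  have h1 : ((range (pr M)).filter (fun a : ℕ => ∀ p ∈ M, Q4 p (α p * a) (β p))).card ≤
      (M.pi (fun p => (range p).filter (fun a : ℕ => Q4 p (α p * a) (β p)))).card := by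
    apply Finset.card_le_card_of_injOn (fun a : ℕ => fun p (_ : p ∈ M) => a % p)
    · intro a ha
      rw [Finset.mem_coe, Finset.mem_filter] at ha
      rw [Finset.mem_coe, Finset.mem_pi]
      intro p hp
      rw [Finset.mem_filter, Finset.mem_range]
      refine ⟨Nat.mod_lt _ (hM p hp).1.pos, ?_⟩
      rw [Q4_mod (Nat.mod_modEq a p)]
      exact ha.2 p hp
    · intro a ha b hb hab
      rw [Finset.mem_coe, Finset.mem_filter, Finset.mem_range] at ha hb
      have h2 : ∀ p ∈ M, a ≡ b [MOD p] := fun p hp => congrFun (congrFun hab p) hp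
      have h3 : a ≡ b [MOD pr M] := by
        rw [Nat.modEq_iff_dvd]
        unfold pr
        rw [Nat.cast_prod]
        apply Finset.prod_dvd_of_coprime
        · intro p hp q hq hpq
          show IsCoprime (p : ℤ) (q : ℤ)
          rw [Nat.isCoprime_iff_coprime]
          exact (Nat.coprime_primes (hM p hp).1 (hM q hq).1).2 hpq
        · intro p hp
          exact (Nat.modEq_iff_dvd).1 (h2 p hp)
      exact Nat.ModEq.eq_of_lt_of_lt h3 ha.1 hb.1
  rw [Finset.card_pi] at h1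
  calc (((range (pr M)).filter (fun a : ℕ => ∀ p ∈ M, Q4 p (α p * a) (β p))).card : ℝ)
      ≤ ((∏ p ∈ M, ((range p).filter (fun a : ℕ => Q4 p (α p * a) (β p))).card : ℕ) : ℝ) := by
        exact_mod_cast h1
    _ = ∏ p ∈ M, (((range p).filter (fun a : ℕ => Q4 p (α p * a) (β p))).card : ℝ) := by
        push_cast; rfl
    _ ≤ _ := Finset.prod_le_prod (fun _ _ => Nat.cast_nonneg _)
        (fun p hp => loc_card (hM p hp).1 (hM p hp).2.1 _ _ (hM p hp).2.2.1 (hM p hp).2.2.2)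

lemma pr_pos {M : Finset ℕ} (hM : ∀ p ∈ M, p.Prime) : 0 < pr M :=
  Finset.prod_pos fun p hp => (hM p hp).pos

lemma tot_pr {M : Finset ℕ} (hM : ∀ p ∈ M, p.Prime) :
    ((Nat.totient (pr M) : ℕ) : ℝ) = ∏ p ∈ M, (p - 1 : ℝ) := by
  classical
  unfold pr
  induction M using Finset.induction_on with
  | empty => simp
  | insert p M hp ih =>
    rw [Finset.prod_insert hp, Finset.prod_insert hp, Nat.totient_mul, Nat.cast_mul,
      ih (fun q hq => hM q (Finset.mem_insert_of_mem hq)),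
      Nat.totient_prime (hM p (Finset.mem_insert_self _ _)),
      Nat.cast_sub (hM p (Finset.mem_insert_self _ _)).one_lt.le, Nat.cast_one]
    apply Nat.Coprime.prod_right
    intro q hq
    exact (Nat.coprime_primes (hM p (Finset.mem_insert_self _ _))
      (hM q (Finset.mem_insert_of_mem hq))).2 (fun h => hp (h ▸ hq))

open Classical in
theorem w : P_W := by
  obtain ⟨C, hC, hsv⟩ := Pool.Agent.H95R2.Leh.ap_sieve
  refine ⟨9 * C, by linarith, ?_⟩
  intro k M α β T hk hT hM hQ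
  have hMp : ∀ p ∈ M, p.Prime := fun p hp => (hM p hp).1
  set Q := pr M with hQd
  have hQ0 : 0 < Q := pr_pos hMp
  have hprod0 : 0 < ∏ p ∈ M, (gp p)⁻¹ := Finset.prod_pos fun p _ => inv_pos.2 (gp_pos p)
  set F := (Icc 2 ⌊T⌋₊).filter (fun n => Rough k n ∧ ∀ p ∈ M, Q4 p (α p * n) (β p)) with hF
  rcases F.eq_empty_or_nonempty with hE | ⟨n₀, hn₀⟩
  · rw [hE, Finset.card_empty, Nat.cast_zero]
    positivity
  have hk0 : (0 : ℝ) < k := by exact_mod_cast hk
  -- `T ≥ 2 ^ k`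
  have hT2 : (2 : ℝ) ^ k ≤ T := by
    rw [hF, Finset.mem_filter, Finset.mem_Icc] at hn₀
    have h1 : 2 ^ k ≤ n₀ := by
      have h2 : n₀ ≠ 1 := by omega
      exact (hn₀.2.1 _ (Nat.minFac_prime h2) (Nat.minFac_dvd n₀)).trans (Nat.minFac_le (by omega))
    have h3 : ((2 ^ k : ℕ) : ℝ) ≤ T := by
      calc ((2 ^ k : ℕ) : ℝ) ≤ ((⌊T⌋₊ : ℕ) : ℝ) := by exact_mod_cast h1.trans hn₀.1.2
        _ ≤ T := Nat.floor_le hT
    push_cast at h3
    exact h3
  set k' := (k + 1) / 2 with hk'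
  have hk'1 : 1 ≤ k' := by omega
  have hk'k : k' ≤ k := by omega
  set N0 := 2 ^ k' with hN0
  have hN02 : 2 ≤ N0 := by
    calc 2 = 2 ^ 1 := rfl
      _ ≤ 2 ^ k' := Nat.pow_le_pow_right (by norm_num) hk'1
  have hQN : (Q * N0) ≤ 2 ^ (k + 1) := by
    have h1 : (Q * N0) ^ 4 ≤ (2 ^ (k + 1)) ^ 4 := by
      calc (Q * N0) ^ 4 = Q ^ 4 * N0 ^ 4 := by ring
        _ ≤ 2 ^ k * N0 ^ 4 := Nat.mul_le_mul_right _ hQ
        _ = 2 ^ (k + 4 * k') := by rw [hN0, ← pow_mul, ← pow_add, mul_comm k' 4]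
        _ ≤ 2 ^ ((k + 1) * 4) := Nat.pow_le_pow_right (by norm_num) (by omega)
        _ = (2 ^ (k + 1)) ^ 4 := by rw [pow_mul]
    exact (Nat.pow_le_pow_iff_left (by norm_num)).1 h1
  set A := (range Q).filter (fun a : ℕ => ∀ p ∈ M, Q4 p (α p * a) (β p)) with hA
  set B := ⌊T⌋₊ / (Q * N0) + 1 with hB
  have hQN0 : 0 < Q * N0 := Nat.mul_pos hQ0 (by omega)
  -- the injection
  have hcard : F.card ≤ ∑ a ∈ A, ∑ b ∈ range B, ((range N0).filter
      (fun i => ∀ p : ℕ, p.Prime → (p : ℝ) ^ 8 ≤ N0 → ¬ p ∣ (a + Q * (b * N0)) + i * Q)).card := by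
    have h1 : F.card ≤ (A.sigma (fun a => (range B).sigma (fun b => (range N0).filter
      (fun i => ∀ p : ℕ, p.Prime → (p : ℝ) ^ 8 ≤ N0 → ¬ p ∣ (a + Q * (b * N0)) + i * Q)))).card := by
      apply Finset.card_le_card_of_injOn
        (fun n : ℕ => (⟨n % Q, ⟨n / Q / N0, n / Q % N0⟩⟩ : Σ _ : ℕ, Σ _ : ℕ, ℕ))
      · intro n hn
        rw [Finset.mem_coe, hF, Finset.mem_filter, Finset.mem_Icc] at hn
        obtain ⟨⟨hn2, hnT⟩, hr, hq⟩ := hn
        rw [Finset.mem_coe, Finset.mem_sigma, Finset.mem_sigma, hA, Finset.mem_filter,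
          Finset.mem_range, Finset.mem_range, Finset.mem_filter, Finset.mem_range]
        have hdec : n % Q + Q * (n / Q / N0 * N0) + n / Q % N0 * Q = n := by
          have e1 := Nat.div_add_mod (n / Q) N0
          have e2 := Nat.mod_add_div n Q
          calc n % Q + Q * (n / Q / N0 * N0) + n / Q % N0 * Q
              = n % Q + Q * (N0 * (n / Q / N0) + n / Q % N0) := by ring
            _ = n := by rw [e1, e2]
        refine ⟨⟨Nat.mod_lt _ hQ0, ?_⟩, ?_, Nat.mod_lt _ (by omega), ?_⟩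
        · intro p hp
          have hpQ : p ∣ Q := Finset.dvd_prod_of_mem _ hp
          rw [Q4_mod ((Nat.mod_modEq n Q).of_dvd hpQ)]
          exact hq p hp
        · show n / Q / N0 < B
          rw [hB, Nat.lt_succ_iff, Nat.div_div_eq_div_mul]
          exact Nat.div_le_div_right hnT
        · show ∀ p : ℕ, p.Prime → (p : ℝ) ^ 8 ≤ N0 →
            ¬ p ∣ (n % Q + Q * (n / Q / N0 * N0)) + n / Q % N0 * Q
          rw [hdec]
          intro p hp hp8 hpn
          have h2 := hr p hp hpn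
          have h3 : p ^ 8 ≤ N0 := by exact_mod_cast hp8
          have h4 : p < p ^ 8 := lt_self_pow₀ hp.one_lt (by norm_num)
          have h5 : N0 ≤ 2 ^ k := Nat.pow_le_pow_right (by norm_num) hk'k
          omega
      · intro m _ n _ hmn
        simp only [Sigma.mk.injEq, heq_eq_eq] at hmn
        obtain ⟨h1, h2, h3⟩ := hmn
        have h4 : m / Q = n / Q := by
          rw [← Nat.div_add_mod (m / Q) N0, ← Nat.div_add_mod (n / Q) N0, h2, h3]
        rw [← Nat.div_add_mod m Q, ← Nat.div_add_mod n Q, h4, h1]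
    rw [Finset.card_sigma] at h1
    refine h1.trans (le_of_eq ?_)
    exact Finset.sum_congr rfl fun a _ => Finset.card_sigma _ _
  have hNr : (0 : ℝ) < N0 := by exact_mod_cast (by omega : 0 < N0)
  have hQr : (0 : ℝ) < Q := by exact_mod_cast hQ0
  have hlog : (k : ℝ) / 3 ≤ Real.log N0 := by
    rw [hN0]
    push_cast
    rw [Real.log_pow]
    have h1 : (k : ℝ) / 2 ≤ k' := by
      have : k ≤ 2 * k' := by omega
      have : (k : ℝ) ≤ 2 * k' := by exact_mod_cast this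
      linarith
    have h2 : (0.69 : ℝ) < Real.log 2 := by
      have := Real.log_two_gt_d9; linarith
    nlinarith
  have hlog0 : 0 < Real.log N0 := lt_of_lt_of_le (by positivity) hlog
  have hpt : ∀ a ∈ A, ∀ b ∈ range B, (((range N0).filter
      (fun i => ∀ p : ℕ, p.Prime → (p : ℝ) ^ 8 ≤ N0 →
        ¬ p ∣ (a + Q * (b * N0)) + i * Q)).card : ℝ) ≤
      C * ((Q : ℝ) / Nat.totient Q) * N0 / Real.log N0 := by
    intro a _ b _
    exact_mod_cast hsv (a + Q * (b * N0)) Q N0 hQ0 hN02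
  have hBr : (B : ℝ) ≤ 3 * T / (Q * N0) := by
    have h1 : ((⌊T⌋₊ / (Q * N0) : ℕ) : ℝ) ≤ T / (Q * N0) := by
      calc ((⌊T⌋₊ / (Q * N0) : ℕ) : ℝ) ≤ (⌊T⌋₊ : ℝ) / ((Q * N0 : ℕ) : ℝ) := Nat.cast_div_le
        _ ≤ T / (Q * N0) := by
          push_cast
          gcongr
          exact Nat.floor_le hT
    have h2 : (1 : ℝ) ≤ 2 * T / (Q * N0) := by
      rw [le_div_iff₀ (by positivity), one_mul]
      have h3 : ((Q * N0 : ℕ) : ℝ) ≤ ((2 ^ (k + 1) : ℕ) : ℝ) := by exact_mod_cast hQN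
      push_cast at h3
      calc (Q : ℝ) * N0 ≤ 2 ^ (k + 1) := h3
        _ = 2 * 2 ^ k := by ring
        _ ≤ 2 * T := by linarith
    rw [hB]
    push_cast
    have h3 : 3 * T / (Q * N0) = T / (Q * N0) + 2 * T / (Q * N0) := by ring
    rw [h3]
    have h4 : ((⌊T⌋₊ / (Q * N0) : ℕ) : ℝ) + 1 ≤ T / (Q * N0) + 2 * T / (Q * N0) :=
      add_le_add h1 h2
    exact_mod_cast h4
  have hφ : (0 : ℝ) < Nat.totient Q := by exact_mod_cast Nat.totient_pos.2 hQ0
  have hAc : (A.card : ℝ) ≤ (Nat.totient Q : ℝ) * ∏ p ∈ M, (gp p)⁻¹ := by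
    rw [hQd, tot_pr hMp, ← Finset.prod_mul_distrib]
    exact res_card M α β hM
  calc (F.card : ℝ) ≤ ((∑ a ∈ A, ∑ b ∈ range B, ((range N0).filter
      (fun i => ∀ p : ℕ, p.Prime → (p : ℝ) ^ 8 ≤ N0 →
        ¬ p ∣ (a + Q * (b * N0)) + i * Q)).card : ℕ) : ℝ) := by exact_mod_cast hcard
    _ = ∑ a ∈ A, ∑ b ∈ range B, (((range N0).filter
      (fun i => ∀ p : ℕ, p.Prime → (p : ℝ) ^ 8 ≤ N0 →
        ¬ p ∣ (a + Q * (b * N0)) + i * Q)).card : ℝ) := by push_cast; rfl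
    _ ≤ ∑ a ∈ A, ∑ b ∈ range B, C * ((Q : ℝ) / Nat.totient Q) * N0 / Real.log N0 :=
        Finset.sum_le_sum fun a ha => Finset.sum_le_sum fun b hb => hpt a ha b hb
    _ = (A.card : ℝ) * (B * (C * ((Q : ℝ) / Nat.totient Q) * N0 / Real.log N0)) := by
        simp [Finset.sum_const, Finset.card_range]
    _ ≤ ((Nat.totient Q : ℝ) * ∏ p ∈ M, (gp p)⁻¹) * ((3 * T / (Q * N0)) *
          (C * ((Q : ℝ) / Nat.totient Q) * N0 / Real.log N0)) := by
        gcongr
    _ = 3 * C * (T / Real.log N0) * ∏ p ∈ M, (gp p)⁻¹ := by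
        field_simp
    _ ≤ 3 * C * (T / (k / 3)) * ∏ p ∈ M, (gp p)⁻¹ := by
        gcongr
    _ = 9 * C * (T / k) * ∏ p ∈ M, (gp p)⁻¹ := by
        field_simp
        ring

end Pool.Agent.D0H70.QT
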