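import Pool.Agent.D0H30.QT.Stm
import Pool.Agent.D0H70.QT.W

/-! Project QT, module BLK. -/

set_option autoImplicit false

namespace Pool.Agent.D0H70.QT

open Finset Pool.Agent.D0H30.QT

lemma rough_prime {k r : ℕ} (hr : r.Prime) (h : 2 ^ k ≤ r) : Rough k r := by
  intro q hq hqr
  rwa [(Nat.prime_dvd_prime_iff_eq hq hr).1 hqr]

open Classical in
/-- the counting lemma in the form used below -/
lemma cnt {C : ℝ} (hC : 0 ≤ C)
    (hW : ∀ (k : ℕ) (M : Finset ℕ) (α β : ℕ → ℤ) (T : ℝ), 1 ≤ k → 0 ≤ T →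
      (∀ p ∈ M, p.Prime ∧ p ≠ 2 ∧ ¬ (p : ℤ) ∣ α p ∧ ¬ (p : ℤ) ∣ β p) → pr M ^ 4 ≤ 2 ^ k →
      (((Icc 2 ⌊T⌋₊).filter (fun n => Rough k n ∧ ∀ p ∈ M, Q4 p (α p * n) (β p))).card : ℝ) ≤
        C * (T / k) * ∏ p ∈ M, (gp p)⁻¹)
    (k : ℕ) (M X : Finset ℕ) (T : ℝ) (hk : 1 ≤ k) (hT : 0 ≤ T)
    (hM : ∀ p ∈ M, ∃ a b : ℤ, ∀ x ∈ X, p.Prime ∧ p ≠ 2 ∧ ¬ (p : ℤ) ∣ a ∧ ¬ (p : ℤ) ∣ b ∧
      Q4 p (a * x) b)
    (hX : ∀ x ∈ X, 2 ≤ x ∧ (x : ℝ) ≤ T ∧ Rough k x) (hQ : pr M ^ 4 ≤ 2 ^ k) :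
    (X.card : ℝ) ≤ C * (T / k) * ∏ p ∈ M, (gp p)⁻¹ := by
  have hprod0 : 0 < ∏ p ∈ M, (gp p)⁻¹ := Finset.prod_pos fun p _ => inv_pos.2 (gp_pos p)
  rcases X.eq_empty_or_nonempty with hE | ⟨x₀, hx₀⟩
  · rw [hE, Finset.card_empty, Nat.cast_zero]
    positivity
  choose! α β hαβ using hM
  refine le_trans ?_ (hW k M α β T hk hT (fun p hp => ?_) hQ)
  · apply Nat.cast_le.2
    apply Finset.card_le_card
    intro x hx
    rw [Finset.mem_filter, Finset.mem_Icc]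
    obtain ⟨h1, h2, h3⟩ := hX x hx
    exact ⟨⟨h1, Nat.le_floor h2⟩, h3, fun p hp => (hαβ p hp x hx).2.2.2.2⟩
  · have h1 := hαβ p hp x₀ hx₀
    exact ⟨h1.1, h1.2.1, h1.2.2.1, h1.2.2.2.1⟩

lemma card_fib {ι γ : Type*} [DecidableEq γ] (F : Finset ι) (f : ι → γ) (b : ℝ)
    (h : ∀ y ∈ F.image f, ((F.filter (fun x => f x = y)).card : ℝ) ≤ b) :
    (F.card : ℝ) ≤ b * (F.image f).card := by
  rw [Finset.card_eq_sum_card_image f F]
  push_cast
  calc ∑ y ∈ F.image f, ((F.filter (fun x => f x = y)).card : ℝ) ≤ ∑ y ∈ F.image f, b :=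
        Finset.sum_le_sum h
    _ = b * (F.image f).card := by rw [Finset.sum_const, nsmul_eq_mul, mul_comm]

lemma cond_of {κ : Fin 4 → ℤ} {lam : Fin 4 → Fin 4 → ℤ} {N : ℕ} {D : Fin 4 → ℕ}
    (h : Adm κ lam N D) {i j l : Fin 4} {p : ℕ} (hp : p ∈ (D i).primeFactors) (hji : j ≠ i)
    (hli : l ≠ i) {x E : ℕ} (hD : D j = x * E) :
    p.Prime ∧ p ≠ 2 ∧ ¬ (p : ℤ) ∣ κ j * E * lam i l ∧ ¬ (p : ℤ) ∣ κ l * D l * lam i j ∧
      Q4 p ((κ j * E * lam i l) * x) (κ l * D l * lam i j) := by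
  have hpp : p.Prime := Nat.prime_of_mem_primeFactors hp
  have hpd : p ∣ D i := Nat.dvd_of_mem_primeFactors hp
  have hpi : Prime (p : ℤ) := Nat.prime_iff_prime_int.1 hpp
  obtain ⟨h2, hκ, hl⟩ := h.bad i p hp
  have hcop : ∀ m, m ≠ i → ¬ p ∣ D m := by
    intro m hm hpm
    have h1 := Nat.dvd_gcd hpm hpd
    have h3 : Nat.gcd (D m) (D i) = 1 := h.cop m i hm
    rw [h3] at h1
    exact hpp.one_lt.ne' (Nat.dvd_one.1 h1)
  refine ⟨hpp, h2, ?_, ?_, ?_⟩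
  · intro hd
    rcases hpi.dvd_or_dvd hd with hd | hd
    · rcases hpi.dvd_or_dvd hd with hd | hd
      · exact hκ j hd
      · have h3 : p ∣ E := by exact_mod_cast hd
        exact hcop j hji (hD ▸ Dvd.dvd.mul_left h3 x)
    · exact hl i l hli.symm hd
  · intro hd
    rcases hpi.dvd_or_dvd hd with hd | hd
    · rcases hpi.dvd_or_dvd hd with hd | hd
      · exact hκ l hd
      · exact hcop l hli (by exact_mod_cast hd)
    · exact hl i j hji.symm hd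
  · have h3 := h.cond i p hp j l hji hli
    rw [hD] at h3
    have h4 : κ j * ((x * E : ℕ) : ℤ) * lam i l = (κ j * E * lam i l) * x := by
      push_cast; ring
    rwa [h4] at h3

lemma pr_dvd_tup (S : Fin 4 → Finset ℕ) (n r s : ℕ) (i : Fin 4) : pr (S i) ∣ tup S n r s i := by
  fin_cases i
  · exact Dvd.intro_left n rfl
  · exact Dvd.intro_left r rfl
  · exact Dvd.intro_left s rfl
  · exact dvd_refl _

lemma mem_pf {κ : Fin 4 → ℤ} {lam : Fin 4 → Fin 4 → ℤ} {N : ℕ} {S : Fin 4 → Finset ℕ}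
    {n r s : ℕ} (h : Adm κ lam N (tup S n r s)) (hS : ∀ i, ∀ p ∈ S i, p.Prime) {i : Fin 4} {p : ℕ}
    (hp : p ∈ S i) : p ∈ (tup S n r s i).primeFactors :=
  Nat.mem_primeFactors.2 ⟨hS i p hp, (Finset.dvd_prod_of_mem _ hp).trans (pr_dvd_tup S n r s i),
    (h.sq i).ne_zero⟩

lemma disj_of {κ : Fin 4 → ℤ} {lam : Fin 4 → Fin 4 → ℤ} {N : ℕ} {S : Fin 4 → Finset ℕ}
    {n r s : ℕ} (h : Adm κ lam N (tup S n r s)) (hS : ∀ i, ∀ p ∈ S i, p.Prime) {i j : Fin 4}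
    (hij : i ≠ j) {p : ℕ} (hp : p ∈ S i) : p ∉ S j := by
  intro hp'
  have h1 := Nat.dvd_of_mem_primeFactors (mem_pf h hS hp)
  have h2 := Nat.dvd_of_mem_primeFactors (mem_pf h hS hp')
  have h3 := Nat.dvd_gcd h1 h2
  have h4 : Nat.gcd (tup S n r s i) (tup S n r s j) = 1 := h.cop i j hij
  rw [h4] at h3
  exact (hS i p hp).one_lt.ne' (Nat.dvd_one.1 h3)

lemma tup_prod (S : Fin 4 → Finset ℕ) (n r s : ℕ) :
    ∏ i, tup S n r s i = n * r * s * ∏ i, pr (S i) := by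
  rw [Fin.prod_univ_four, Fin.prod_univ_four]
  show (n * pr (S 0)) * (r * pr (S 1)) * (s * pr (S 2)) * pr (S 3) = _
  ring

lemma pr_mono {M M' : Finset ℕ} (h : M ⊆ M') (hM : ∀ p ∈ M', p.Prime) : pr M ≤ pr M' :=
  Finset.prod_le_prod_of_subset_of_one_le' h (fun p hp _ => (hM p hp).one_lt.le)

theorem blk (hW : P_W) : P_BLK := by
  classical
  obtain ⟨C, hC1, hW⟩ := hW
  have hC : 0 ≤ C := by linarith
  refine ⟨32 * C ^ 3, by nlinarith [one_le_pow₀ hC1 (n := 3)], ?_⟩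
  intro κ lam N k j S M1 M2 hk hjk hS hM12 hM1 hM2 hQ1 hQ2
  have hSp : ∀ i, 0 < pr (S i) := fun i => pr_pos (hS i)
  have hP0 : 0 < ∏ i, pr (S i) := Finset.prod_pos fun i _ => hSp i
  have hPr0 : (0 : ℝ) < ∏ i, (pr (S i) : ℝ) := Finset.prod_pos fun i _ => by exact_mod_cast hSp i
  -- positivity of the entries
  have hpos : ∀ t ∈ Blk κ lam N k j S, 2 ≤ t.1 ∧ 2 ^ k ≤ t.2.1 ∧ 2 ^ j ≤ t.2.2 ∧
      t.1 * t.2.1 * t.2.2 * ∏ i, pr (S i) ≤ N := by
    rintro ⟨n, r, s⟩ ⟨hn, hrn, ⟨hr1, hr2, hr3⟩, hs, hadm⟩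
    refine ⟨hn, hr2, ?_, ?_⟩
    · rcases hs with ⟨h1, h2⟩ | ⟨h1, h2, h3⟩
      · show 2 ^ j ≤ s
        have h1' : s = 1 := h1
        rw [h1', h2]; norm_num
      · exact h2
    · have := hadm.le
      rw [tup_prod] at this
      exact this
  have hfin : (Blk κ lam N k j S).Finite := by
    apply (Set.finite_Iic ((N, N, N) : ℕ × ℕ × ℕ)).subset
    rintro ⟨n, r, s⟩ ht
    obtain ⟨h1, h2, h3, h4⟩ := hpos _ ht
    simp only at h1 h2 h3 h4
    have h2' : 1 ≤ r := le_trans Nat.one_le_two_pow h2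
    have h3' : 1 ≤ s := le_trans Nat.one_le_two_pow h3
    have h5 : n * r * s ≤ N := (Nat.le_mul_of_pos_right _ hP0).trans h4
    refine ⟨?_, ?_, ?_⟩
    · show n ≤ N
      calc n ≤ n * r := Nat.le_mul_of_pos_right _ h2'
        _ ≤ n * r * s := Nat.le_mul_of_pos_right _ h3'
        _ ≤ N := h5
    · show r ≤ N
      calc r ≤ n * r := Nat.le_mul_of_pos_left _ (by omega)
        _ ≤ n * r * s := Nat.le_mul_of_pos_right _ h3'
        _ ≤ N := h5
    · show s ≤ N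
      calc s ≤ n * r * s := Nat.le_mul_of_pos_left _ (Nat.mul_pos (by omega) h2')
        _ ≤ N := h5
  refine ⟨hfin, ?_⟩
  have hk0 : (0 : ℝ) < k := by exact_mod_cast hk
  have hg0 : ∀ p, 0 < (gp p)⁻¹ := fun p => inv_pos.2 (gp_pos p)
  have hrhs0 : 0 ≤ 32 * C ^ 3 * (N / ∏ i, (pr (S i) : ℝ)) / ((k + 1) ^ 2 * (j + 1)) *
      (∏ p ∈ M1, (gp p)⁻¹ ^ 2) * ∏ p ∈ M2, (gp p)⁻¹ := by
    have h1 : 0 < ∏ p ∈ M1, (gp p)⁻¹ ^ 2 := Finset.prod_pos fun p _ => pow_pos (hg0 p) 2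
    have h2 : 0 < ∏ p ∈ M2, (gp p)⁻¹ := Finset.prod_pos fun p _ => hg0 p
    positivity
  rcases (Blk κ lam N k j S).eq_empty_or_nonempty with hE | ⟨t₀, ht₀⟩
  · rw [hE, Set.ncard_empty, Nat.cast_zero]
    exact hrhs0
  have hadm₀ := ht₀.2.2.2.2
  have hdis : ∀ i l, i ≠ l → ∀ p ∈ S i, p ∉ S l := fun i l hil p hp => disj_of hadm₀ hS hil hp
  have hM1p : ∀ p ∈ M1, p.Prime := by
    intro p hp
    have := hM1 hp
    simp only [Finset.mem_union] at this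
    rcases this with ((h | h) | h) | h
    · exact hS _ p h
    · exact hS _ p h
    · exact hS _ p h
    · exact hS _ p h
  have hM2p : ∀ p ∈ M2, p.Prime := by
    intro p hp
    have := hM2 hp
    simp only [Finset.mem_union] at this
    rcases this with h | h
    · exact hS _ p h
    · exact hS _ p h
  have hMUp : ∀ p ∈ M1 ∪ M2, p.Prime := by
    intro p hp
    rcases Finset.mem_union.1 hp with h | h
    · exact hM1p p h
    · exact hM2p p h
  have hQU : pr (M1 ∪ M2) ^ 4 ≤ 2 ^ k := by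
    have h1 : pr (M1 ∪ M2) = pr M1 * pr M2 := Finset.prod_union hM12
    have h2 : (pr (M1 ∪ M2) ^ 4) ^ 2 ≤ (2 ^ k) ^ 2 := by
      calc (pr (M1 ∪ M2) ^ 4) ^ 2 = pr M1 ^ 8 * pr M2 ^ 8 := by rw [h1]; ring
        _ ≤ 2 ^ j * 2 ^ k := Nat.mul_le_mul hQ1 hQ2
        _ ≤ 2 ^ k * 2 ^ k := Nat.mul_le_mul_right _ (Nat.pow_le_pow_right (by norm_num) hjk)
        _ = (2 ^ k) ^ 2 := by ring
    exact (Nat.pow_le_pow_iff_left (by norm_num)).1 h2
  set Ms := M1 ∩ (S 0 ∪ S 1) with hMs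
  set Mr := ((M1 ∪ M2) ∩ S 0) ∪ (M1 ∩ S 2) ∪ (M1 ∩ S 3) with hMr
  set Mn := ((M1 ∪ M2) ∩ S 1) ∪ (M1 ∩ S 2) ∪ (M1 ∩ S 3) with hMn
  have hMrU : Mr ⊆ M1 ∪ M2 := by
    intro p hp
    simp only [hMr, Finset.mem_union, Finset.mem_inter] at hp ⊢
    tauto
  have hMnU : Mn ⊆ M1 ∪ M2 := by
    intro p hp
    simp only [hMn, Finset.mem_union, Finset.mem_inter] at hp ⊢
    tauto
  have hMsU : Ms ⊆ M1 ∪ M2 := by
    intro p hp
    simp only [hMs, Finset.mem_union, Finset.mem_inter] at hp ⊢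
    tauto
  have hQr : pr Mr ^ 4 ≤ 2 ^ k := (Nat.pow_le_pow_left (pr_mono hMrU hMUp) 4).trans hQU
  have hQn : pr Mn ^ 4 ≤ 2 ^ k := (Nat.pow_le_pow_left (pr_mono hMnU hMUp) 4).trans hQU
  have hQs : pr Ms ^ 4 ≤ 2 ^ j := by
    have h1 : pr Ms ≤ pr M1 := pr_mono Finset.inter_subset_left hM1p
    calc pr Ms ^ 4 ≤ pr M1 ^ 4 := Nat.pow_le_pow_left h1 4
      _ ≤ pr M1 ^ 8 := Nat.pow_le_pow_right (pr_pos hM1p) (by norm_num)
      _ ≤ 2 ^ j := hQ1
  set F := hfin.toFinset with hF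
  have hmF : ∀ t, t ∈ F ↔ t ∈ Blk κ lam N k j S := fun t => hfin.mem_toFinset
  rw [Set.ncard_eq_toFinset_card _ hfin]
  set bn : ℝ := C * ((N / ((∏ i, (pr (S i) : ℝ)) * 2 ^ k * 2 ^ j)) / k) * ∏ p ∈ Mn, (gp p)⁻¹ with hbn
  set br : ℝ := C * (2 ^ (k + 1) / k) * ∏ p ∈ Mr, (gp p)⁻¹ with hbr
  set bs : ℝ := C * (2 ^ (j + 2) / (j + 1)) * ∏ p ∈ Ms, (gp p)⁻¹ with hbs
  have hMn0 : 0 < ∏ p ∈ Mn, (gp p)⁻¹ := Finset.prod_pos fun p _ => hg0 p
  have hMr0 : 0 < ∏ p ∈ Mr, (gp p)⁻¹ := Finset.prod_pos fun p _ => hg0 p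
  have hMs0 : 0 < ∏ p ∈ Ms, (gp p)⁻¹ := Finset.prod_pos fun p _ => hg0 p
  have hbn0 : 0 ≤ bn := by positivity
  have hbr0 : 0 ≤ br := by positivity
  -- the variable `n`
  have hcn : ∀ s r : ℕ, (((F.filter (fun t => t.2.2 = s)).filter (fun t => t.2.1 = r)).card : ℝ) ≤
      bn := by
    intro s r
    set G := (F.filter (fun t => t.2.2 = s)).filter (fun t => t.2.1 = r) with hG
    have hmG : ∀ t ∈ G, t ∈ Blk κ lam N k j S ∧ t.2.2 = s ∧ t.2.1 = r := by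
      intro t ht
      rw [hG, Finset.mem_filter, Finset.mem_filter, hmF] at ht
      exact ⟨ht.1.1, ht.1.2, ht.2⟩
    have hcard : G.card = (G.image (fun t => t.1)).card := by
      rw [Finset.card_image_of_injOn]
      intro t ht t' ht' hh
      obtain ⟨-, h1, h2⟩ := hmG t ht
      obtain ⟨-, h1', h2'⟩ := hmG t' ht'
      exact Prod.ext hh (Prod.ext (h2.trans h2'.symm) (h1.trans h1'.symm))
    rw [hcard]
    have hel : ∀ n ∈ G.image (fun t => t.1), (n, r, s) ∈ Blk κ lam N k j S := by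
      intro n hn
      obtain ⟨t, ht, rfl⟩ := Finset.mem_image.1 hn
      obtain ⟨h0, h1, h2⟩ := hmG t ht
      rw [← h1, ← h2]
      exact h0
    apply cnt hC hW k Mn _ _ hk (by positivity) _ _ hQn
    · intro p hp
      simp only [hMn, Finset.mem_union, Finset.mem_inter] at hp
      rcases hp with (⟨-, hp⟩ | ⟨-, hp⟩) | ⟨-, hp⟩
      · refine ⟨κ 0 * pr (S 0) * lam 1 2, κ 2 * (s * pr (S 2) : ℕ) * lam 1 0, fun n hn => ?_⟩
        have ha := (hel n hn).2.2.2.2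
        exact cond_of ha (mem_pf ha hS hp) (j := 0) (l := 2) (by decide) (by decide) rfl
      · refine ⟨κ 0 * pr (S 0) * lam 2 1, κ 1 * (r * pr (S 1) : ℕ) * lam 2 0, fun n hn => ?_⟩
        have ha := (hel n hn).2.2.2.2
        exact cond_of ha (mem_pf ha hS hp) (j := 0) (l := 1) (by decide) (by decide) rfl
      · refine ⟨κ 0 * pr (S 0) * lam 3 1, κ 1 * (r * pr (S 1) : ℕ) * lam 3 0, fun n hn => ?_⟩
        have ha := (hel n hn).2.2.2.2
        exact cond_of ha (mem_pf ha hS hp) (j := 0) (l := 1) (by decide) (by decide) rfl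
    · intro n hn
      have ha := hel n hn
      obtain ⟨h1, h2, h3, h4⟩ := hpos _ ha
      simp only at h1 h2 h3 h4
      refine ⟨h1, ?_, ha.2.1⟩
      rw [le_div_iff₀ (by positivity)]
      have h5 : n * ((∏ i, pr (S i)) * 2 ^ k * 2 ^ j) ≤ N := by
        calc n * ((∏ i, pr (S i)) * 2 ^ k * 2 ^ j) ≤ n * ((∏ i, pr (S i)) * r * s) := by gcongr
          _ = n * r * s * ∏ i, pr (S i) := by ring
          _ ≤ N := h4
      exact_mod_cast h5
  -- the variable `r`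
  have hcr : ∀ s : ℕ, ((F.filter (fun t => t.2.2 = s)).card : ℝ) ≤ bn * br := by
    intro s
    refine (card_fib (F.filter (fun t => t.2.2 = s)) (fun t => t.2.1) bn
      (fun r _ => ?_)).trans ?_
    · refine le_trans (Nat.cast_le.2 (Finset.card_le_card ?_)) (hcn s r)
      intro t ht
      rw [Finset.mem_filter] at ht ⊢
      exact ht
    apply mul_le_mul_of_nonneg_left _ hbn0
    have hel : ∀ r ∈ (F.filter (fun t => t.2.2 = s)).image (fun t => t.2.1),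
        ∃ n, (n, r, s) ∈ Blk κ lam N k j S := by
      intro r hr
      obtain ⟨t, ht, rfl⟩ := Finset.mem_image.1 hr
      rw [Finset.mem_filter, hmF] at ht
      refine ⟨t.1, ?_⟩
      rw [← ht.2]
      exact ht.1
    have hT : (2 : ℝ) ^ (k + 1) / k = ((2 : ℝ) ^ (k + 1)) / (k : ℝ) := rfl
    apply cnt hC hW k Mr _ ((2 : ℝ) ^ (k + 1)) hk (by positivity) _ _ hQr
    · intro p hp
      simp only [hMr, Finset.mem_union, Finset.mem_inter] at hp
      rcases hp with (⟨-, hp⟩ | ⟨-, hp⟩) | ⟨-, hp⟩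
      · refine ⟨κ 1 * pr (S 1) * lam 0 2, κ 2 * (s * pr (S 2) : ℕ) * lam 0 1, fun r hr => ?_⟩
        obtain ⟨n, hn⟩ := hel r hr
        have ha := hn.2.2.2.2
        exact cond_of ha (mem_pf ha hS hp) (j := 1) (l := 2) (by decide) (by decide) rfl
      · refine ⟨κ 1 * pr (S 1) * lam 2 3, κ 3 * (pr (S 3) : ℕ) * lam 2 1, fun r hr => ?_⟩
        obtain ⟨n, hn⟩ := hel r hr
        have ha := hn.2.2.2.2
        exact cond_of ha (mem_pf ha hS hp) (j := 1) (l := 3) (by decide) (by decide) rfl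
      · refine ⟨κ 1 * pr (S 1) * lam 3 2, κ 2 * (s * pr (S 2) : ℕ) * lam 3 1, fun r hr => ?_⟩
        obtain ⟨n, hn⟩ := hel r hr
        have ha := hn.2.2.2.2
        exact cond_of ha (mem_pf ha hS hp) (j := 1) (l := 2) (by decide) (by decide) rfl
    · intro r hr
      obtain ⟨n, hn⟩ := hel r hr
      obtain ⟨hr1, hr2, hr3⟩ := hn.2.2.1
      refine ⟨hr1.two_le, ?_, rough_prime hr1 hr2⟩
      exact_mod_cast hr3.le
  -- the variable `s`
  have hcs : ((F.image (fun t => t.2.2)).card : ℝ) ≤ bs := by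
    have hel : ∀ s ∈ F.image (fun t => t.2.2), ∃ n r, (n, r, s) ∈ Blk κ lam N k j S := by
      intro s hs
      obtain ⟨t, ht, rfl⟩ := Finset.mem_image.1 hs
      rw [hmF] at ht
      exact ⟨t.1, t.2.1, ht⟩
    rcases Nat.eq_zero_or_pos j with hj | hj
    · -- `j = 0`
      have hMe : Ms = ∅ := by
        rw [Finset.eq_empty_iff_forall_notMem]
        intro p hp
        have hp1 : p.Prime := hMUp p (hMsU hp)
        have h1 : p ≤ pr Ms := Nat.le_of_dvd (pr_pos fun q hq => hMUp q (hMsU hq))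
          (Finset.dvd_prod_of_mem _ hp)
        have h2 : pr Ms ^ 4 ≤ 1 := by rw [hj, pow_zero] at hQs; exact hQs
        have h3 : p ^ 4 ≤ 1 := (Nat.pow_le_pow_left h1 4).trans h2
        have h4 : 2 ^ 4 ≤ p ^ 4 := Nat.pow_le_pow_left hp1.two_le 4
        omega
      have h1 : F.image (fun t => t.2.2) ⊆ {1} := by
        intro s hs
        obtain ⟨n, r, h⟩ := hel s hs
        rw [Finset.mem_singleton]
        rcases h.2.2.2.1 with ⟨h2, -⟩ | ⟨h2, h3, h4⟩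
        · exact h2
        · exfalso
          rw [hj] at h4
          have h5 : s < 2 := h4
          have h6 : Nat.Prime s := h2
          have := h6.two_le
          omega
      have h2 : (F.image (fun t => t.2.2)).card ≤ 1 := by
        calc _ ≤ ({1} : Finset ℕ).card := Finset.card_le_card h1
          _ = 1 := rfl
      have h3 : ((F.image (fun t => t.2.2)).card : ℝ) ≤ 1 := by exact_mod_cast h2
      refine h3.trans ?_
      rw [hbs, hMe, Finset.prod_empty, hj]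
      norm_num
      linarith
    · have h1 : ((F.image (fun t => t.2.2)).card : ℝ) ≤ C * (2 ^ (j + 1) / j) *
          ∏ p ∈ Ms, (gp p)⁻¹ := by
        apply cnt hC hW j Ms _ ((2 : ℝ) ^ (j + 1)) hj (by positivity) _ _ hQs
        · intro p hp
          simp only [hMs, Finset.mem_union, Finset.mem_inter] at hp
          rcases hp with ⟨-, hp | hp⟩
          · refine ⟨κ 2 * pr (S 2) * lam 0 3, κ 3 * (pr (S 3) : ℕ) * lam 0 2, fun s hs => ?_⟩
            obtain ⟨n, r, hn⟩ := hel s hs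
            have ha := hn.2.2.2.2
            exact cond_of ha (mem_pf ha hS hp) (j := 2) (l := 3) (by decide) (by decide) rfl
          · refine ⟨κ 2 * pr (S 2) * lam 1 3, κ 3 * (pr (S 3) : ℕ) * lam 1 2, fun s hs => ?_⟩
            obtain ⟨n, r, hn⟩ := hel s hs
            have ha := hn.2.2.2.2
            exact cond_of ha (mem_pf ha hS hp) (j := 2) (l := 3) (by decide) (by decide) rfl
        · intro s hs
          obtain ⟨n, r, hn⟩ := hel s hs
          rcases hn.2.2.2.1 with ⟨-, h2⟩ | ⟨h2, h3, h4⟩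
          · omega
          · have h2' : Nat.Prime s := h2
            have h3' : 2 ^ j ≤ s := h3
            have h4' : s < 2 ^ (j + 1) := h4
            refine ⟨h2'.two_le, ?_, rough_prime h2' h3'⟩
            exact_mod_cast h4'.le
      refine h1.trans ?_
      rw [hbs]
      have hj0 : (0 : ℝ) < j := by exact_mod_cast hj
      have hj1 : (1 : ℝ) ≤ j := by exact_mod_cast hj
      have h2 : (2 : ℝ) ^ (j + 1) / j ≤ 2 ^ (j + 2) / (j + 1) := by
        rw [div_le_div_iff₀ hj0 (by linarith)]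
        have : (2 : ℝ) ^ (j + 2) = 2 ^ (j + 1) * 2 := by rw [← pow_succ]
        rw [this]
        have h3 : (0 : ℝ) < 2 ^ (j + 1) := by positivity
        nlinarith
      gcongr
  have htot : (F.card : ℝ) ≤ bn * br * bs := by
    refine (card_fib F (fun t => t.2.2) (bn * br) (fun s _ => hcr s)).trans ?_
    exact mul_le_mul_of_nonneg_left hcs (by positivity)
  have hprod : (∏ p ∈ Mn, (gp p)⁻¹) * (∏ p ∈ Mr, (gp p)⁻¹) * (∏ p ∈ Ms, (gp p)⁻¹) =
      (∏ p ∈ M1, (gp p)⁻¹ ^ 2) * ∏ p ∈ M2, (gp p)⁻¹ := by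
    have e : ∀ (M : Finset ℕ) (f : ℕ → ℝ), M ⊆ M1 ∪ M2 →
        ∏ p ∈ M, f p = ∏ p ∈ M1 ∪ M2, if p ∈ M then f p else 1 := by
      intro M f hM
      rw [Finset.prod_ite_mem, Finset.inter_eq_right.2 hM]
    rw [e Mn _ hMnU, e Mr _ hMrU, e Ms _ hMsU, e M1 _ Finset.subset_union_left,
      e M2 _ Finset.subset_union_right, ← Finset.prod_mul_distrib, ← Finset.prod_mul_distrib,
      ← Finset.prod_mul_distrib]
    refine Finset.prod_congr rfl fun p hp => ?_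
    rcases Finset.mem_union.1 hp with hp1 | hp2
    · have hp2 : p ∉ M2 := Finset.disjoint_left.1 hM12 hp1
      have h1 := hM1 hp1
      simp only [Finset.mem_union] at h1
      rcases h1 with ((h | h) | h) | h
      · have a1 := hdis 0 1 (by decide) p h
        have a2 := hdis 0 2 (by decide) p h
        have a3 := hdis 0 3 (by decide) p h
        simp [hMn, hMr, hMs, hp1, hp2, h, a1, a2, a3, sq]
      · have a1 := hdis 1 0 (by decide) p h
        have a2 := hdis 1 2 (by decide) p h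
        have a3 := hdis 1 3 (by decide) p h
        simp [hMn, hMr, hMs, hp1, hp2, h, a1, a2, a3, sq]
      · have a1 := hdis 2 0 (by decide) p h
        have a2 := hdis 2 1 (by decide) p h
        have a3 := hdis 2 3 (by decide) p h
        simp [hMn, hMr, hMs, hp1, hp2, h, a1, a2, a3, sq]
      · have a1 := hdis 3 0 (by decide) p h
        have a2 := hdis 3 1 (by decide) p h
        have a3 := hdis 3 2 (by decide) p h
        simp [hMn, hMr, hMs, hp1, hp2, h, a1, a2, a3, sq]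
    · have hp1 : p ∉ M1 := Finset.disjoint_right.1 hM12 hp2
      have h1 := hM2 hp2
      simp only [Finset.mem_union] at h1
      rcases h1 with h | h
      · have a1 := hdis 0 1 (by decide) p h
        simp [hMn, hMr, hMs, hp1, hp2, h, a1]
      · have a1 := hdis 1 0 (by decide) p h
        simp [hMn, hMr, hMs, hp1, hp2, h, a1]
  refine htot.trans ?_
  have hk1 : (1 : ℝ) ≤ k := by exact_mod_cast hk
  have e1 : bn * br * bs = 8 * C ^ 3 * (N / ∏ i, (pr (S i) : ℝ)) / (k ^ 2 * (j + 1)) *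
      ((∏ p ∈ Mn, (gp p)⁻¹) * (∏ p ∈ Mr, (gp p)⁻¹) * (∏ p ∈ Ms, (gp p)⁻¹)) := by
    rw [hbn, hbr, hbs, pow_succ (2 : ℝ) k, pow_succ (2 : ℝ) (j + 1), pow_succ (2 : ℝ) j]
    field_simp
    ring
  rw [e1, hprod, mul_assoc (_ / _) _ _]
  have h1 : 0 < ∏ p ∈ M1, (gp p)⁻¹ ^ 2 := Finset.prod_pos fun p _ => pow_pos (hg0 p) 2
  have h2 : 0 < ∏ p ∈ M2, (gp p)⁻¹ := Finset.prod_pos fun p _ => hg0 p
  apply mul_le_mul_of_nonneg_right _ (by positivity)
  rw [div_le_div_iff₀ (by positivity) (by positivity)]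
  have h3 : ((k : ℝ) + 1) ^ 2 ≤ 4 * k ^ 2 := by nlinarith
  have h4 : 0 ≤ 8 * C ^ 3 * (N / ∏ i, (pr (S i) : ℝ)) := by positivity
  have h5 : (0 : ℝ) < j + 1 := by positivity
  calc 8 * C ^ 3 * (N / ∏ i, (pr (S i) : ℝ)) * ((k + 1) ^ 2 * (j + 1))
      ≤ 8 * C ^ 3 * (N / ∏ i, (pr (S i) : ℝ)) * ((4 * k ^ 2) * (j + 1)) := by gcongr
    _ = 32 * C ^ 3 * (N / ∏ i, (pr (S i) : ℝ)) * (k ^ 2 * (j + 1)) := by ring

end Pool.Agent.D0H70.QT
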